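import Pool.Agent.X83.DA.Stm

/-! Project DA (MP_8bcfe8_an): part ZDEC. -/

set_option autoImplicit false

namespace Pool.Agent.X332.DA

open MeasureTheory Set Filter Topology RealInnerProductSpace Pool.Agent.X83.DA

section
variable {H : Type*} [NormedAddCommGroup H] [InnerProductSpace ℝ H] [CompleteSpace H]

omit [CompleteSpace H] in
theorem comG {D : Submodule ℝ H} {A : D →ₗ[ℝ] H} {b c : ℝ} {P G : ℝ → H →L[ℝ] H}
    (hA : SA D A b) (hF : Fam D A c P G) (t : ℝ) (v : D) :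
    ∃ h : G t (v : H) ∈ D, A ⟨G t (v : H), h⟩ = G t (A v) := by
  refine hA.max _ _ fun y => ?_
  have h1 : HasDerivAt (fun s => ⟪A y, P s (v : H)⟫) ⟪A y, G t (v : H)⟫ t := by
    have := (hasDerivAt_const t (A y)).inner ℝ (hF.dP (v : H) t)
    simpa using this
  have h2 : HasDerivAt (fun s => ⟪(y : H), P s (A v)⟫) ⟪(y : H), G t (A v)⟫ t := by
    have := (hasDerivAt_const t (y : H)).inner ℝ (hF.dP (A v) t)
    simpa using this
  have h3 : (fun s => ⟪A y, P s (v : H)⟫) = fun s => ⟪(y : H), P s (A v)⟫ := by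
    funext s
    obtain ⟨h, h4⟩ := hF.comP s v
    rw [← h4, ← hA.sym y ⟨P s v, h⟩]
  rw [h3] at h1
  exact h1.unique h2

theorem est (hEN : S_EN H) {D : Submodule ℝ H} {A : D →ₗ[ℝ] H} {b c : ℝ} {P G : ℝ → H →L[ℝ] H}
    (hc : 0 < c) (hA : SA D A b) (hF : Fam D A c P G) : ∃ κ C : ℝ, 0 < κ ∧ 0 ≤ C ∧
      ∀ (x : D) (s : ℝ), 0 ≤ s →
        ‖P s (A x)‖ ≤ C * Real.sqrt ⟪A x, (x : H)⟫ * Real.exp (-(κ * s)) := by
  obtain ⟨γ0, h0, h1⟩ := hEN b c c hA.bpos hc le_rfl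
  obtain ⟨C, hC, h2⟩ := h1 γ0 h0 le_rfl
  refine ⟨γ0 / 2, C, by positivity, hC, fun x s hs => ?_⟩
  have h3 := (h2 D A hA c ⟨le_rfl, le_rfl⟩ (fun t => G t (x : H) + c • P t (x : H))
    (fun t => -(P t (A x))) (fun t => G t (A x) + c • P t (A x)) (fun _ => 0) 0 le_rfl ?_ ?_ ?_ ?_
    ?_ s hs).2
  · simp only [hF.P0, hF.G0, norm_neg, ContinuousLinearMap.zero_apply, smul_zero, add_zero,
      norm_zero, neg_zero, ContinuousLinearMap.one_apply] at h3
    exact h3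
  · refine (hF.cont _).add (Continuous.const_smul ?_ c)
    exact continuous_iff_continuousAt.2 fun t => (hF.dP _ t).continuousAt
  · intro t
    have h4 := (hF.dG t x).add ((hF.dP (x : H) t).const_smul c)
    refine h4.congr_deriv ?_
    abel
  · intro t
    have h4 := (hF.dP (A x) t).neg
    refine h4.congr_deriv ?_
    rw [smul_neg, neg_neg, add_zero]
    abel
  · intro t
    obtain ⟨e1, e2⟩ := comG hA hF t x
    obtain ⟨e3, e4⟩ := hF.comP t x
    refine ⟨D.add_mem e1 (D.smul_mem c e3), ?_⟩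
    have h5 : (⟨G t (x : H) + c • P t (x : H), D.add_mem e1 (D.smul_mem c e3)⟩ : D) =
        ⟨G t (x : H), e1⟩ + c • ⟨P t (x : H), e3⟩ := rfl
    rw [h5, map_add, map_smul, e2, e4]
  · intro t _
    simp
end

theorem t (H : Type*) [NormedAddCommGroup H] [InnerProductSpace ℝ H] [CompleteSpace H] :
    S_ZDEC H := by
  intro hEN D A b c P G hc hA hF x z hx hz
  obtain ⟨κ, C, hκ, hC, hest⟩ := est hEN hc hA hF
  rw [Metric.tendsto_atTop]
  intro δ hδ
  obtain ⟨N, hN⟩ := hx ((δ / (2 * (C + 1))) ^ 2) (by positivity)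
  have hlim : Tendsto (fun t : ℝ => C * (δ / (2 * (C + 1))) +
      C * Real.sqrt ⟪A (x N), (x N : H)⟫ * Real.exp (-(κ * t))) atTop
      (𝓝 (C * (δ / (2 * (C + 1))) + C * Real.sqrt ⟪A (x N), (x N : H)⟫ * 0)) := by
    refine tendsto_const_nhds.add (tendsto_const_nhds.mul ?_)
    exact Real.tendsto_exp_neg_atTop_nhds_zero.comp (tendsto_id.const_mul_atTop hκ)
  have hlt : C * (δ / (2 * (C + 1))) + C * Real.sqrt ⟪A (x N), (x N : H)⟫ * 0 < δ := by
    rw [mul_zero, add_zero, mul_div_assoc', div_lt_iff₀ (by positivity)]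
    nlinarith
  obtain ⟨T, hT⟩ := eventually_atTop.1 ((hlim.eventually (gt_mem_nhds hlt)).and
    (eventually_ge_atTop 0))
  refine ⟨T, fun t ht => ?_⟩
  obtain ⟨h1, h2⟩ := hT t ht
  rw [dist_zero_right]
  refine lt_of_le_of_lt (le_of_tendsto (hz t h2).norm ?_) h1
  filter_upwards [eventually_ge_atTop N] with n hn
  have h3 := hest (x n - x N) t h2
  have h4 := hest (x N) t h2
  have h5 : P t (A (x n)) = P t (A (x n - x N)) + P t (A (x N)) := by
    rw [← map_add, ← map_add, sub_add_cancel]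
  rw [norm_neg, h5]
  refine (norm_add_le _ _).trans (add_le_add (h3.trans ?_) h4)
  have h6 : Real.sqrt ⟪A (x n - x N), ((x n - x N : D) : H)⟫ ≤ δ / (2 * (C + 1)) :=
    Real.sqrt_le_iff.2 ⟨by positivity, (hN n N hn le_rfl).le⟩
  have h7 : Real.exp (-(κ * t)) ≤ 1 := Real.exp_le_one_iff.2 (by nlinarith [mul_nonneg hκ.le h2])
  calc C * Real.sqrt ⟪A (x n - x N), ((x n - x N : D) : H)⟫ * Real.exp (-(κ * t))
      ≤ C * (δ / (2 * (C + 1))) * 1 := by gcongr
    _ = C * (δ / (2 * (C + 1))) := mul_one _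

end Pool.Agent.X332.DA
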